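import Pool.Agent.T6.H65.KP.FIN
import Pool.Agent.T6.H65.KP.ATE
import Pool.Agent.T6.H65.KP.ATT
import Pool.Agent.T6.H65.KP.BAS
import Pool.Agent.T6.H65.KP.COA
import Pool.Agent.T6.H65.KP.DUA
import Pool.Agent.T6.H65.KP.EXT
import Pool.Agent.T6.H65.KP.HLF
import Pool.Agent.T6.H65.KP.HOM
import Pool.Agent.T6.H65.KP.INT
import Pool.Agent.T6.H65.KP.KNH
import Pool.Agent.T6.H65.KP.LOW
import Pool.Agent.T6.H65.KP.NUM
import Pool.Agent.T6.H65.KP.PRG
import Pool.Agent.T6.H65.KP.QUO
import Pool.Agent.T6.H65.KP.REF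
import Pool.Agent.T6.H65.KP.RHO
import Pool.Agent.T6.H65.KP.SBG
import Pool.Agent.T6.H65.KP.SCN
import Pool.Agent.T6.H65.KP.SID
import Pool.Agent.T6.H65.KP.SK
import Pool.Agent.T6.H65.KP.SKH
import Pool.Agent.T6.H65.KP.SLA
import Pool.Agent.T6.H65.KP.SLM
import Pool.Agent.T6.H65.KP.SLU
import Pool.Agent.T6.H65.KP.SSB
import Pool.Agent.T6.H65.KP.STA
import Pool.Agent.T6.H65.KP.STC
import Pool.Agent.T6.H65.KP.THR
import Pool.Agent.T6.H65.KP.UPP
import Pool.Agent.T6.H65.KP.VOA
import Pool.Agent.T6.H65.KP.VOS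

/-!
# MP_4c924c_co: all `(G, m, h)` with `ρ(G, m, h) = hm - h + 1 < |G|`, and all minimisers

`sumset h A` is the `h`-fold sumset, `rho G m h` the least size of `hA` over the `m`-subsets `A`
of `G`. `Stair h H L C` says that `C ⊆ L` is an `h`-staircase over the subgroup `H`: starting from
the set `H` itself, one climbs a chain of subgroups `H = K₀ ≤ K₁ ≤ ... ≤ L`; at a step from `K` to
the next subgroup one adds nothing (`grow`), or the cosets `g + K, 2g + K, ..., lg + K` inside
`K + ⟨g⟩`, where none of `g, 2g, ..., (hl)g` lies in `K` (`prog`), or, only for `h = 2`, a union `T`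
of cosets of `K` which contains exactly one of `x, -x` for each `x ∈ L \ K` (`half`).
-/

set_option autoImplicit false

namespace Pool.Agent.Results.MP_4c924c_co.AllMinimisers

open Pool.Agent.T6.H65.KP

theorem modules : StmFIN := by
  have bas := ModBAS.bas
  have hom := ModHOM.hom
  have sk := ModSK.sk
  have skh := ModSKH.skh bas sk
  have quo := ModQUO.quo
  have knh := ModKNH.knh bas hom quo
  have num := ModNUM.num
  have low := ModLOW.low bas hom knh quo num
  have upp := ModUPP.upp bas hom quo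
  have sbg := ModSBG.sbg
  have rhoo := ModRHO.rho bas hom quo low upp sbg
  have ate := ModATE.ate
  have dua := ModDUA.dua
  have int := ModINT.int dua
  have sid := ModSID.sid int
  have scn := ModSCN.scn
  have ssb := ModSSB.ssb
  have voa := ModVOA.voa ate sid scn ssb
  have slm := ModSLM.slm ssb
  have att := ModATT.att sid slm voa
  have prg := ModPRG.prg
  have vos := ModVOS.vos ate att prg
  have slu := ModSLU.slu bas sk quo
  have sla := ModSLA.sla bas hom sk skh knh quo
  have hlf := ModHLF.hlf bas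
  have coa := ModCOA.coa bas
  have sta := ModSTA.sta
  have thr := ModTHR.thr bas vos prg slu hlf coa sta
  have ext := ModEXT.ext bas hom knh num vos sla quo
  have ref := ModREF.ref
  have stc := ModSTC.stc bas
  exact ModFIN.fin bas skh quo low rhoo sta thr ext ref stc

/-- Let `G` be a finite abelian group, `h ≥ 2`, `1 ≤ m ≤ |G|`. Then `ρ(G, m, h) = hm - h + 1 < |G|`
if and only if `hm - h + 1 < |G|` and `h · ((m - 1) mod d) ≤ d - 1` for every divisor `d` of `|G|`.
In this case an `m`-subset `A` has `|hA| = hm - h + 1` if and only if there are a subgroup `H`, an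
`h`-staircase `C` over `H` and `c ∈ G` with `A ⊆ c + C` and
`h (|C| - m) = (h - 1) (|H| - 1)`. -/
theorem result (G : Type) [AddCommGroup G] [Fintype G] (m h : ℕ)
    (hh : 2 ≤ h) (hm : 1 ≤ m) (hmn : m ≤ Fintype.card G) :
    ((rho G m h = h * m - h + 1 ∧ h * m - h + 1 < Fintype.card G) ↔
      (h * m - h + 1 < Fintype.card G ∧
        ∀ d, d ∣ Fintype.card G → h * ((m - 1) % d) ≤ d - 1)) ∧
    ((rho G m h = h * m - h + 1 ∧ h * m - h + 1 < Fintype.card G) →
      ∀ A : Finset G, A.card = m → ((sumset h A).card = h * m - h + 1 ↔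
        ∃ (H L : AddSubgroup G) (C : Set G) (c : G), Stair h H L C ∧ (∀ a ∈ A, a - c ∈ C) ∧
          h * C.ncard = h * m + (h - 1) * (Nat.card H - 1))) :=
  modules G m h hh hm hmn

end Pool.Agent.Results.MP_4c924c_co.AllMinimisers
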